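import Mathlib

/-!
# `ℓ₂(Γ)`, `|Γ| ≤ 2 ^ ℵ₀`, has a renorming without uncountable equilateral sets (in ZFC)

Take an injection `r : Γ → (ℕ → Bool)`, the countably many cylinder sets `A_l ⊆ Γ` (`l` a finite
word) and `N x = ∑_l w_l ‖x 1_{A_l}‖` with positive summable weights `w_l`.

Proof that `N` has no uncountable equilateral set `Y` (distance `δ`).  Let `F` be the filter of
sets containing all but countably many elements of `Y`.  For an ultrafilter `U` finer than `F` let
`u_U` be the weak limit and `σ_U(l) = lim_U ‖(y - u_U) 1_{A_l}‖ ^ 2`.  Taking limits in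
`N (y - y') = δ` twice gives, for all `U`, `V`,
`∑_l w_l √(‖(u_U - u_V) 1_{A_l}‖ ^ 2 + σ_U(l) + σ_V(l)) = δ`, in particular
`∑_l w_l √(2 σ_U(l)) = δ`.  The strict inequality between arithmetic and quadratic means forces
`u_U = u_V` and `σ_U = σ_V`.  So `F` itself converges, and since `F` is closed under countable
intersections, all but countably many `y ∈ Y` have the same numbers `‖y 1_{A_l}‖`, hence the same
`|y|`, hence the same countable support; on that support they agree with the weak limit, so they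
are all equal, a contradiction.
-/

set_option autoImplicit false

open Filter Topology Set
open scoped ENNReal

namespace Pool.Agent.Results.MP_55235b_an.ZFCRenorming

/-- The real Hilbert space `ℓ₂(Γ)` of all square-summable functions `x : Γ → ℝ`, with the norm
`‖x‖ = (∑ |x ξ| ^ 2) ^ (1 / 2)`. -/
abbrev Ell2 (Γ : Type*) : Type _ := ↥(lp (fun _ : Γ => ℝ) 2)

/-- `N` is an equivalent renorming of the real normed space `H`: a norm on the same vector
space such that `c ‖x‖ ≤ N x ≤ C ‖x‖` for some constants `0 < c`, `C`. -/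
def IsEquivalentRenorming {H : Type*} [NormedAddCommGroup H] [NormedSpace ℝ H] (N : H → ℝ) :
    Prop :=
  (∀ x y, N (x + y) ≤ N x + N y) ∧ (∀ (t : ℝ) (x), N (t • x) = |t| * N x) ∧
    ∃ c C : ℝ, 0 < c ∧ ∀ x, c * ‖x‖ ≤ N x ∧ N x ≤ C * ‖x‖

/-- `Y` is equilateral for the norm `N`: for some `δ > 0`, any two distinct elements of `Y` are
at `N`-distance exactly `δ`. -/
def IsEquilateral {H : Type*} [NormedAddCommGroup H] (N : H → ℝ) (Y : Set H) : Prop :=
  ∃ δ : ℝ, 0 < δ ∧ ∀ y ∈ Y, ∀ z ∈ Y, y ≠ z → N (y - z) = δ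

section Abstract

variable {H : Type*} [NormedAddCommGroup H] [InnerProductSpace ℝ H] [CompleteSpace H]

/-- Weak limits along ultrafilters of bounded families. -/
lemma exists_weak_limit (U : Ultrafilter H) (R : ℝ) (hR : ∀ᶠ y in (U : Filter H), ‖y‖ ≤ R) :
    ∃ u : H, ∀ v : H, Tendsto (fun y => inner ℝ y v) (U : Filter H) (𝓝 (inner ℝ u v)) := by
  -- push the ultrafilter to the weak dual
  let f : H → WeakDual ℝ H := fun y => StrongDual.toWeakDual (InnerProductSpace.toDual ℝ H y)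
  have hK := WeakDual.isCompact_closedBall (𝕜 := ℝ) (E := H) (0 : StrongDual ℝ H) R
  have hmem : (U.map f : Filter (WeakDual ℝ H)) ≤
      𝓟 (WeakDual.toStrongDual ⁻¹' Metric.closedBall (0 : StrongDual ℝ H) R) := by
    rw [le_principal_iff]
    change _ ∈ Filter.map f U
    rw [Filter.mem_map]
    filter_upwards [hR] with y hy
    simp only [mem_preimage, Metric.mem_closedBall, dist_zero_right]
    simpa [f] using hy
  obtain ⟨g, hg, hgl⟩ := hK.ultrafilter_le_nhds _ hmem
  refine ⟨(InnerProductSpace.toDual ℝ H).symm (WeakDual.toStrongDual g), fun v => ?_⟩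
  have h1 : Tendsto f U (𝓝 g) := hgl
  have h2 : Tendsto (fun y => (f y) v) U (𝓝 (g v)) :=
    ((WeakDual.eval_continuous v).tendsto g).comp h1
  simpa [f, InnerProductSpace.toDual_symm_apply] using h2

/-- Bounded real functions have limits along ultrafilters. -/
lemma exists_real_limit {α : Type*} (U : Ultrafilter α) (f : α → ℝ) (R : ℝ)
    (hR : ∀ᶠ y in (U : Filter α), 0 ≤ f y ∧ f y ≤ R) :
    ∃ c : ℝ, 0 ≤ c ∧ Tendsto f (U : Filter α) (𝓝 c) := by
  have hmem : (U.map f : Filter ℝ) ≤ 𝓟 (Icc 0 R) := by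
    rw [le_principal_iff]
    change _ ∈ Filter.map f U
    rw [Filter.mem_map]
    filter_upwards [hR] with y hy
    exact hy
  obtain ⟨c, hc, hcl⟩ := (isCompact_Icc (a := (0 : ℝ)) (b := R)).ultrafilter_le_nhds _ hmem
  exact ⟨c, hc.1, hcl⟩

variable {ι : Type*}

/-- Data of a limit of a bounded family along an ultrafilter: the weak limit `u` and the
asymptotic defects `σ i = lim ‖P i (y - u)‖ ^ 2`. -/
lemma exists_limit_data (P : ι → H →L[ℝ] H) (hP : ∀ i x, ‖P i x‖ ≤ ‖x‖)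
    (U : Ultrafilter H) (R : ℝ) (hR : ∀ᶠ y in (U : Filter H), ‖y‖ ≤ R) :
    ∃ (u : H) (σ : ι → ℝ), (∀ v : H, Tendsto (fun y => inner ℝ y v) (U : Filter H)
        (𝓝 (inner ℝ u v))) ∧ (∀ i, 0 ≤ σ i) ∧
      ∀ (x : H) (i : ι), Tendsto (fun y => ‖P i (x - y)‖ ^ 2) (U : Filter H)
        (𝓝 (‖P i (x - u)‖ ^ 2 + σ i)) := by
  obtain ⟨u, hu⟩ := exists_weak_limit U R hR
  have hσ : ∀ i, ∃ c : ℝ, 0 ≤ c ∧ Tendsto (fun y => ‖P i (y - u)‖ ^ 2) (U : Filter H) (𝓝 c) := by
    intro i
    apply exists_real_limit U _ ((R + ‖u‖) ^ 2)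
    filter_upwards [hR] with y hy
    refine ⟨by positivity, ?_⟩
    have h1 : ‖P i (y - u)‖ ≤ R + ‖u‖ := by
      calc ‖P i (y - u)‖ ≤ ‖y - u‖ := hP i _
        _ ≤ ‖y‖ + ‖u‖ := norm_sub_le _ _
        _ ≤ R + ‖u‖ := by linarith
    exact pow_le_pow_left₀ (norm_nonneg _) h1 2
  choose σ hσ0 hσ using hσ
  refine ⟨u, σ, hu, hσ0, fun x i => ?_⟩
  have key : ∀ y : H, ‖P i (x - y)‖ ^ 2 =
      ‖P i (x - u)‖ ^ 2 - 2 * (inner ℝ y ((P i).adjoint (P i (x - u))) -
        inner ℝ u ((P i).adjoint (P i (x - u)))) + ‖P i (y - u)‖ ^ 2 := by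
    intro y
    have h1 : P i (x - y) = P i (x - u) - P i (y - u) := by
      rw [← map_sub]; congr 1; abel
    rw [h1, norm_sub_sq_real, ContinuousLinearMap.adjoint_inner_right,
      ContinuousLinearMap.adjoint_inner_right, ← inner_sub_left, ← map_sub,
      real_inner_comm]
  have h2 : Tendsto (fun y => ‖P i (x - u)‖ ^ 2 - 2 * (inner ℝ y ((P i).adjoint (P i (x - u))) -
        inner ℝ u ((P i).adjoint (P i (x - u)))) + ‖P i (y - u)‖ ^ 2) (U : Filter H)
      (𝓝 (‖P i (x - u)‖ ^ 2 - 2 * (inner ℝ u ((P i).adjoint (P i (x - u))) -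
        inner ℝ u ((P i).adjoint (P i (x - u)))) + σ i)) :=
    (tendsto_const_nhds.sub ((hu _).sub tendsto_const_nhds |>.const_mul 2)).add (hσ i)
  rw [tendsto_congr key]
  simpa using h2

/-- The weighted sum of seminorms. -/
noncomputable def wnorm (w : ι → ℝ) (P : ι → H →L[ℝ] H) (x : H) : ℝ :=
  ∑' i, w i * ‖P i x‖

omit [CompleteSpace H] in
lemma summable_wnorm (w : ι → ℝ) (hw : ∀ i, 0 < w i) (hws : Summable w)
    (P : ι → H →L[ℝ] H) (hP : ∀ i x, ‖P i x‖ ≤ ‖x‖) (x : H) :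
    Summable fun i => w i * ‖P i x‖ := by
  refine Summable.of_nonneg_of_le (fun i => mul_nonneg (hw i).le (norm_nonneg _))
    (fun i => mul_le_mul_of_nonneg_left (hP i x) (hw i).le) (hws.mul_right ‖x‖)

/-- Continuity of the weighted sum of square roots under dominated convergence. -/
lemma tendsto_wsum {α : Type*} (w : ι → ℝ) (hw : ∀ i, 0 < w i) (hws : Summable w)
    (F : Filter α) (g : α → ι → ℝ) (c : ι → ℝ) (B : ℝ)
    (hg : ∀ i, Tendsto (fun y => g y i) F (𝓝 (c i)))
    (hB : ∀ᶠ y in F, ∀ i, Real.sqrt (g y i) ≤ B) :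
    Tendsto (fun y => ∑' i, w i * Real.sqrt (g y i)) F (𝓝 (∑' i, w i * Real.sqrt (c i))) := by
  apply tendsto_tsum_of_dominated_convergence (bound := fun i => w i * B) (hws.mul_right B)
  · intro i
    exact (Real.continuous_sqrt.continuousAt.tendsto.comp (hg i)).const_mul (w i)
  · filter_upwards [hB] with y hy i
    rw [Real.norm_eq_abs, abs_of_nonneg (mul_nonneg (hw i).le (Real.sqrt_nonneg _))]
    exact mul_le_mul_of_nonneg_left (hy i) (hw i).le

/-- Pointwise inequality between quadratic and arithmetic means. -/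
lemma sqrt_ineq {q a b : ℝ} (hq : 0 ≤ q) (ha : 0 ≤ a) (hb : 0 ≤ b) :
    (Real.sqrt (2 * a) + Real.sqrt (2 * b)) / 2 ≤ Real.sqrt (q + b + a) := by
  apply Real.le_sqrt_of_sq_le
  have h1 := Real.sq_sqrt (show (0 : ℝ) ≤ 2 * a by positivity)
  have h2 := Real.sq_sqrt (show (0 : ℝ) ≤ 2 * b by positivity)
  nlinarith [sq_nonneg (Real.sqrt (2 * a) - Real.sqrt (2 * b))]

lemma sqrt_eq_case {q a b : ℝ} (hq : 0 ≤ q) (ha : 0 ≤ a) (hb : 0 ≤ b)
    (h : (Real.sqrt (2 * a) + Real.sqrt (2 * b)) / 2 = Real.sqrt (q + b + a)) :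
    q = 0 ∧ a = b := by
  have h1 := Real.sq_sqrt (show (0 : ℝ) ≤ 2 * a by positivity)
  have h2 := Real.sq_sqrt (show (0 : ℝ) ≤ 2 * b by positivity)
  have h3 := Real.sq_sqrt (show (0 : ℝ) ≤ q + b + a by positivity)
  rw [← h] at h3
  have h4 : q + (Real.sqrt (2 * a) - Real.sqrt (2 * b)) ^ 2 / 4 = 0 := by nlinarith
  have h5 : q = 0 := by nlinarith [sq_nonneg (Real.sqrt (2 * a) - Real.sqrt (2 * b))]
  have h6 : (Real.sqrt (2 * a) - Real.sqrt (2 * b)) ^ 2 = 0 := by nlinarith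
  have h7 : Real.sqrt (2 * a) = Real.sqrt (2 * b) := by
    have := pow_eq_zero_iff (two_ne_zero) |>.mp h6
    linarith
  refine ⟨h5, ?_⟩
  rw [h7] at h1
  linarith

/-- Main abstract step.  If `Y` is an uncountable equilateral set for the weighted norm, then
all but countably many elements of `Y` have the same seminorm values `‖P i y‖` and the same
inner product with any prescribed vector. -/
lemma main_abstract (w : ι → ℝ) (hw : ∀ i, 0 < w i) (hws : Summable w)
    (P : ι → H →L[ℝ] H) (hP : ∀ i x, ‖P i x‖ ≤ ‖x‖) (i₀ : ι) (hi₀ : ∀ x, P i₀ x = x)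
    (Y : Set H) (δ : ℝ) (hδ : 0 < δ)
    (hY : ∀ y ∈ Y, ∀ y' ∈ Y, y ≠ y' → wnorm w P (y - y') = δ) (hYu : ¬ Y.Countable) :
    ∃ (u : H) (ν : ι → ℝ),
      (∀ i, Tendsto (fun y => ‖P i y‖ ^ 2) (cocountable ⊓ 𝓟 Y) (𝓝 (ν i))) ∧
      (∀ v : H, Tendsto (fun y => inner ℝ y v) (cocountable ⊓ 𝓟 Y) (𝓝 (inner ℝ u v))) := by
  set F : Filter H := cocountable ⊓ 𝓟 Y with hF
  -- a uniform bound
  have hYne : Y.Nonempty := by
    by_contra h
    rw [Set.not_nonempty_iff_eq_empty] at h
    exact hYu (h ▸ Set.countable_empty)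
  obtain ⟨y0, hy0⟩ := hYne
  set R : ℝ := ‖y0‖ + δ / w i₀ with hR
  have hbound : ∀ y ∈ Y, ‖y‖ ≤ R := by
    intro y hy
    by_cases h : y = y0
    · subst h
      have : 0 < δ / w i₀ := div_pos hδ (hw i₀)
      linarith
    · have h1 := hY y hy y0 hy0 h
      have h2 : w i₀ * ‖P i₀ (y - y0)‖ ≤ wnorm w P (y - y0) :=
        (summable_wnorm w hw hws P hP (y - y0)).le_tsum i₀
          (fun j _ => mul_nonneg (hw j).le (norm_nonneg _))
      rw [hi₀, h1] at h2
      have h3 : ‖y - y0‖ ≤ δ / w i₀ := by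
        rw [le_div_iff₀ (hw i₀)]; linarith
      calc ‖y‖ = ‖y0 + (y - y0)‖ := by congr 1; abel
        _ ≤ ‖y0‖ + ‖y - y0‖ := norm_add_le _ _
        _ ≤ R := by linarith
  have hFY : ∀ᶠ y in F, y ∈ Y := by
    rw [hF]; exact mem_inf_of_right (mem_principal_self Y)
  have hFne : ∀ x : H, ∀ᶠ y in F, y ≠ x := by
    intro x
    rw [hF]
    apply mem_inf_of_left
    rw [mem_cocountable]
    have : ({y : H | y ≠ x}ᶜ : Set H) = {x} := by ext y; simp
    rw [this]; exact Set.countable_singleton x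
  have hFbot : F.NeBot := by
    rw [← Filter.frequently_true_iff_neBot]
    intro h
    apply hYu
    simp only [not_true_eq_false] at h
    have h' : (∅ : Set H) ∈ F := by simpa [Filter.Eventually] using h
    rw [hF, Filter.mem_inf_principal] at h'
    have h2 := mem_cocountable.mp h'
    have h3 : ({x : H | x ∈ Y → x ∈ (∅ : Set H)}ᶜ : Set H) = Y := by ext y; simp
    rwa [h3] at h2
  -- one limit
  have step1 : ∀ U : Ultrafilter H, (U : Filter H) ≤ F → ∀ (u : H) (σ : ι → ℝ),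
      (∀ i, 0 ≤ σ i) →
      (∀ (x : H) (i : ι), Tendsto (fun y => ‖P i (x - y)‖ ^ 2) (U : Filter H)
        (𝓝 (‖P i (x - u)‖ ^ 2 + σ i))) →
      ∀ x ∈ Y, ∑' i, w i * Real.sqrt (‖P i (u - x)‖ ^ 2 + σ i) = δ := by
    intro U hU u σ hσ hlim x hx
    have h1 : Tendsto (fun y => ∑' i, w i * Real.sqrt (‖P i (x - y)‖ ^ 2)) (U : Filter H)
        (𝓝 (∑' i, w i * Real.sqrt (‖P i (x - u)‖ ^ 2 + σ i))) := by
      apply tendsto_wsum w hw hws (U : Filter H) (fun y i => ‖P i (x - y)‖ ^ 2) _ (‖x‖ + R)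
        (hlim x)
      filter_upwards [hU hFY] with y hy i
      rw [Real.sqrt_sq (norm_nonneg _)]
      calc ‖P i (x - y)‖ ≤ ‖x - y‖ := hP i _
        _ ≤ ‖x‖ + ‖y‖ := norm_sub_le _ _
        _ ≤ ‖x‖ + R := by linarith [hbound y hy]
    have h2 : Tendsto (fun y => ∑' i, w i * Real.sqrt (‖P i (x - y)‖ ^ 2)) (U : Filter H)
        (𝓝 δ) := by
      apply tendsto_const_nhds.congr'
      filter_upwards [hU hFY, hU (hFne x)] with y hy hyx
      rw [← hY x hx y hy (Ne.symm hyx), wnorm]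
      congr 1
      ext i
      rw [Real.sqrt_sq (norm_nonneg _)]
    have h3 := tendsto_nhds_unique h1 h2
    rw [← h3]
    congr 1
    ext i
    rw [← norm_neg (P i (u - x)), ← map_neg, neg_sub]
  have step2 : ∀ U V : Ultrafilter H, (U : Filter H) ≤ F → (V : Filter H) ≤ F →
      ∀ (u : H) (σ : ι → ℝ) (u' : H) (σ' : ι → ℝ),
      (∀ i, 0 ≤ σ i) → (∀ i, 0 ≤ σ' i) →
      (∀ (x : H) (i : ι), Tendsto (fun y => ‖P i (x - y)‖ ^ 2) (U : Filter H)
        (𝓝 (‖P i (x - u)‖ ^ 2 + σ i))) →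
      (∀ (x : H) (i : ι), Tendsto (fun y => ‖P i (x - y)‖ ^ 2) (V : Filter H)
        (𝓝 (‖P i (x - u')‖ ^ 2 + σ' i))) →
      ∑' i, w i * Real.sqrt (‖P i (u - u')‖ ^ 2 + σ' i + σ i) = δ := by
    intro U V hU hV u σ u' σ' hσ hσ' hlim hlim'
    have hσb : ∀ i, σ i ≤ (R + R) ^ 2 := by
      intro i
      have h1 := hlim y0 i
      have h2 : ‖P i (y0 - u)‖ ^ 2 + σ i ≤ (R + R) ^ 2 := by
        refine le_of_tendsto h1 ?_
        filter_upwards [hU hFY] with y hy
        apply pow_le_pow_left₀ (norm_nonneg _)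
        calc ‖P i (y0 - y)‖ ≤ ‖y0 - y‖ := hP i _
          _ ≤ ‖y0‖ + ‖y‖ := norm_sub_le _ _
          _ ≤ R + R := by linarith [hbound y hy, hbound y0 hy0]
      have h3 : 0 ≤ ‖P i (y0 - u)‖ ^ 2 := by positivity
      linarith
    have h1 : Tendsto (fun y => ∑' i, w i * Real.sqrt (‖P i (u - y)‖ ^ 2 + σ i))
        (V : Filter H)
        (𝓝 (∑' i, w i * Real.sqrt (‖P i (u - u')‖ ^ 2 + σ' i + σ i))) := by
      apply tendsto_wsum w hw hws (V : Filter H) (fun y i => ‖P i (u - y)‖ ^ 2 + σ i) _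
        (Real.sqrt ((‖u‖ + R) ^ 2 + (R + R) ^ 2))
      · intro i
        exact (hlim' u i).add_const (σ i)
      · filter_upwards [hV hFY] with y hy i
        apply Real.sqrt_le_sqrt
        have h4 : ‖P i (u - y)‖ ^ 2 ≤ (‖u‖ + R) ^ 2 := by
          apply pow_le_pow_left₀ (norm_nonneg _)
          calc ‖P i (u - y)‖ ≤ ‖u - y‖ := hP i _
            _ ≤ ‖u‖ + ‖y‖ := norm_sub_le _ _
            _ ≤ ‖u‖ + R := by linarith [hbound y hy]
        linarith [hσb i]
    have h2 : Tendsto (fun y => ∑' i, w i * Real.sqrt (‖P i (u - y)‖ ^ 2 + σ i))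
        (V : Filter H) (𝓝 δ) := by
      apply tendsto_const_nhds.congr'
      filter_upwards [hV hFY] with y hy
      exact (step1 U hU u σ hσ hlim y hy).symm
    exact tendsto_nhds_unique h1 h2
  have summ : ∀ f : ι → ℝ, ∑' i, f i = δ → Summable f := by
    intro f hf
    by_contra h
    rw [tsum_eq_zero_of_not_summable h] at hf
    exact hδ.ne hf
  have step3 : ∀ U V : Ultrafilter H, (U : Filter H) ≤ F → (V : Filter H) ≤ F →
      ∀ (u : H) (σ : ι → ℝ) (u' : H) (σ' : ι → ℝ),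
      (∀ i, 0 ≤ σ i) → (∀ i, 0 ≤ σ' i) →
      (∀ (x : H) (i : ι), Tendsto (fun y => ‖P i (x - y)‖ ^ 2) (U : Filter H)
        (𝓝 (‖P i (x - u)‖ ^ 2 + σ i))) →
      (∀ (x : H) (i : ι), Tendsto (fun y => ‖P i (x - y)‖ ^ 2) (V : Filter H)
        (𝓝 (‖P i (x - u')‖ ^ 2 + σ' i))) →
      u = u' ∧ σ = σ' := by
    intro U V hU hV u σ u' σ' hσ hσ' hlim hlim'
    have hUU := step2 U U hU hU u σ u σ hσ hσ hlim hlim
    have hVV := step2 V V hV hV u' σ' u' σ' hσ' hσ' hlim' hlim'
    have hUV := step2 U V hU hV u σ u' σ' hσ hσ' hlim hlim'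
    have e1 : ∀ i, w i * Real.sqrt (‖P i (u - u)‖ ^ 2 + σ i + σ i) =
        w i * Real.sqrt (2 * σ i) := by
      intro i
      congr 2
      simp; ring
    have e2 : ∀ i, w i * Real.sqrt (‖P i (u' - u')‖ ^ 2 + σ' i + σ' i) =
        w i * Real.sqrt (2 * σ' i) := by
      intro i
      congr 2
      simp; ring
    simp only [e1] at hUU
    simp only [e2] at hVV
    have sU := summ _ hUU
    have sV := summ _ hVV
    have sUV := summ _ hUV
    have sf : Summable (fun i => w i * ((Real.sqrt (2 * σ i) + Real.sqrt (2 * σ' i)) / 2)) := by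
      have := (sU.add sV).div_const 2
      refine this.congr (fun i => ?_)
      ring
    have tf : ∑' i, w i * ((Real.sqrt (2 * σ i) + Real.sqrt (2 * σ' i)) / 2) = δ := by
      have h1 : ∀ i, w i * ((Real.sqrt (2 * σ i) + Real.sqrt (2 * σ' i)) / 2) =
          (w i * Real.sqrt (2 * σ i) + w i * Real.sqrt (2 * σ' i)) / 2 := by
        intro i; ring
      simp only [h1]
      rw [tsum_div_const, sU.tsum_add sV, hUU, hVV]
      ring
    have hle : ∀ i, w i * ((Real.sqrt (2 * σ i) + Real.sqrt (2 * σ' i)) / 2) ≤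
        w i * Real.sqrt (‖P i (u - u')‖ ^ 2 + σ' i + σ i) := by
      intro i
      exact mul_le_mul_of_nonneg_left (sqrt_ineq (by positivity) (hσ i) (hσ' i)) (hw i).le
    have heq : ∀ i, (Real.sqrt (2 * σ i) + Real.sqrt (2 * σ' i)) / 2 =
        Real.sqrt (‖P i (u - u')‖ ^ 2 + σ' i + σ i) := by
      intro i
      by_contra hne
      have hlt : w i * ((Real.sqrt (2 * σ i) + Real.sqrt (2 * σ' i)) / 2) <
          w i * Real.sqrt (‖P i (u - u')‖ ^ 2 + σ' i + σ i) := by
        apply lt_of_le_of_ne (hle i)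
        intro h
        exact hne (mul_left_cancel₀ (hw i).ne' h)
      have := Summable.tsum_lt_tsum hle hlt sf sUV
      rw [tf, hUV] at this
      exact lt_irrefl _ this
    have hc := fun i => sqrt_eq_case (by positivity) (hσ i) (hσ' i) (heq i)
    constructor
    · have h1 := (hc i₀).1
      rw [hi₀] at h1
      have h2 : ‖u - u'‖ = 0 := by
        exact pow_eq_zero_iff (two_ne_zero) |>.mp h1
      exact sub_eq_zero.mp (norm_eq_zero.mp h2)
    · ext i
      exact (hc i).2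
  -- choose one ultrafilter
  obtain ⟨u, σ, hwk, hσ, hlim⟩ := exists_limit_data P hP (Ultrafilter.of F) R
    (by filter_upwards [Ultrafilter.of_le F hFY] with y hy using hbound y hy)
  refine ⟨u, fun i => ‖P i u‖ ^ 2 + σ i, fun i => ?_, fun v => ?_⟩
  · rw [tendsto_iff_ultrafilter]
    intro V hV
    obtain ⟨u', σ', hwk', hσ', hlim'⟩ := exists_limit_data P hP V R
      (by filter_upwards [hV hFY] with y hy using hbound y hy)
    obtain ⟨h1, h2⟩ := step3 (Ultrafilter.of F) V (Ultrafilter.of_le F) hV u σ u' σ' hσ hσ'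
      hlim hlim'
    subst h1 h2
    have := hlim' 0 i
    simpa using this
  · rw [tendsto_iff_ultrafilter]
    intro V hV
    obtain ⟨u', σ', hwk', hσ', hlim'⟩ := exists_limit_data P hP V R
      (by filter_upwards [hV hFY] with y hy using hbound y hy)
    obtain ⟨h1, h2⟩ := step3 (Ultrafilter.of F) V (Ultrafilter.of_le F) hV u σ u' σ' hσ hσ'
      hlim hlim'
    subst h1 h2
    exact hwk' v

end Abstract

section Concrete

universe u

variable {Γ : Type u}

/-- Restriction of a square-summable function to a set `A`, as a bounded operator. -/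
lemma memlp_indicator (A : Set Γ) (x : lp (fun _ : Γ => ℝ) 2) :
    Memℓp (E := fun _ : Γ => ℝ) (A.indicator (fun ξ => (x : Γ → ℝ) ξ)) 2 := by
  have h2 : (0 : ℝ) < (2 : ℝ≥0∞).toReal := by norm_num
  apply memℓp_gen
  have hx := (lp.memℓp x).summable h2
  refine Summable.of_nonneg_of_le (fun i => by positivity) (fun i => ?_) hx
  by_cases hi : i ∈ A
  · simp [Set.indicator_of_mem hi]
  · rw [Set.indicator_of_notMem hi]
    simp only [norm_zero]
    rw [Real.zero_rpow h2.ne']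
    positivity

/-- The restriction operator as a linear map. -/
noncomputable def restrLin (A : Set Γ) : lp (fun _ : Γ => ℝ) 2 →ₗ[ℝ] lp (fun _ : Γ => ℝ) 2 where
  toFun x := ⟨A.indicator (fun ξ => (x : Γ → ℝ) ξ), memlp_indicator A x⟩
  map_add' x y := by
    ext ξ
    by_cases h : ξ ∈ A
    · change A.indicator (fun ξ => ((x + y : lp (fun _ : Γ => ℝ) 2) : Γ → ℝ) ξ) ξ =
        A.indicator (fun ξ => (x : Γ → ℝ) ξ) ξ + A.indicator (fun ξ => (y : Γ → ℝ) ξ) ξ
      simp [Set.indicator, h]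
    · change A.indicator (fun ξ => ((x + y : lp (fun _ : Γ => ℝ) 2) : Γ → ℝ) ξ) ξ =
        A.indicator (fun ξ => (x : Γ → ℝ) ξ) ξ + A.indicator (fun ξ => (y : Γ → ℝ) ξ) ξ
      simp [Set.indicator, h]
  map_smul' c x := by
    ext ξ
    by_cases h : ξ ∈ A <;> simp [Set.indicator, h]

lemma norm_sq_eq (x : lp (fun _ : Γ => ℝ) 2) : ‖x‖ ^ 2 = ∑' ξ, (x : Γ → ℝ) ξ ^ 2 := by
  rw [← real_inner_self_eq_norm_sq, lp.inner_eq_tsum]
  congr 1
  ext ξ
  simp [sq]

lemma summable_sq (x : lp (fun _ : Γ => ℝ) 2) : Summable fun ξ => (x : Γ → ℝ) ξ ^ 2 := by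
  have := lp.summable_inner (𝕜 := ℝ) x x
  refine this.congr (fun ξ => ?_)
  simp [sq]

lemma restrLin_apply (A : Set Γ) (x : lp (fun _ : Γ => ℝ) 2) (ξ : Γ) :
    (restrLin A x : Γ → ℝ) ξ = A.indicator (fun η => (x : Γ → ℝ) η) ξ := rfl

lemma norm_restrLin_le (A : Set Γ) (x : lp (fun _ : Γ => ℝ) 2) : ‖restrLin A x‖ ≤ 1 * ‖x‖ := by
  rw [one_mul]
  apply le_of_sq_le_sq _ (norm_nonneg _)
  rw [norm_sq_eq, norm_sq_eq]
  refine Summable.tsum_le_tsum (fun ξ => ?_) (summable_sq _) (summable_sq _)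
  rw [restrLin_apply]
  by_cases h : ξ ∈ A
  · simp [Set.indicator_of_mem h]
  · rw [Set.indicator_of_notMem h]
    simp only [ne_eq, OfNat.ofNat_ne_zero, not_false_eq_true, zero_pow]
    positivity

/-- The restriction operator as a continuous linear map. -/
noncomputable def restr (A : Set Γ) : lp (fun _ : Γ => ℝ) 2 →L[ℝ] lp (fun _ : Γ => ℝ) 2 :=
  (restrLin A).mkContinuous 1 (norm_restrLin_le A)

lemma restr_apply (A : Set Γ) (x : lp (fun _ : Γ => ℝ) 2) (ξ : Γ) :
    (restr A x : Γ → ℝ) ξ = A.indicator (fun η => (x : Γ → ℝ) η) ξ := rfl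

lemma norm_restr_le (A : Set Γ) (x : lp (fun _ : Γ => ℝ) 2) : ‖restr A x‖ ≤ ‖x‖ := by
  have := norm_restrLin_le A x
  rwa [one_mul] at this

/-- Cylinder sets determined by finite words. -/
def cyl (r : Γ → ℕ → Bool) (l : List Bool) : Set Γ :=
  {ξ | (List.range l.length).map (r ξ) = l}

lemma cyl_nil (r : Γ → ℕ → Bool) : cyl r [] = Set.univ := by
  ext ξ; simp [cyl]

lemma mem_cyl_range (r : Γ → ℕ → Bool) (ξ η : Γ) (k : ℕ) :
    η ∈ cyl r ((List.range k).map (r ξ)) ↔ ∀ i < k, r η i = r ξ i := by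
  simp [cyl]

lemma tendsto_cyl (r : Γ → ℕ → Bool) (hr : Function.Injective r) (x : lp (fun _ : Γ => ℝ) 2)
    (ξ : Γ) :
    Tendsto (fun k : ℕ => ‖restr (cyl r ((List.range k).map (r ξ))) x‖ ^ 2) atTop
      (𝓝 ((x : Γ → ℝ) ξ ^ 2)) := by
  simp only [norm_sq_eq, restr_apply]
  have h0 : (x : Γ → ℝ) ξ ^ 2 = ∑' η, ({ξ} : Set Γ).indicator (fun η => (x : Γ → ℝ) η ^ 2) η := by
    rw [tsum_eq_single ξ]
    · simp
    · intro η hη
      simp [Set.indicator, hη]
  rw [h0]
  apply tendsto_tsum_of_dominated_convergence (bound := fun η => (x : Γ → ℝ) η ^ 2)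
    (summable_sq x)
  · intro η
    by_cases h : η = ξ
    · subst h
      apply tendsto_const_nhds.congr
      intro k
      rw [Set.indicator_of_mem (by simp), Set.indicator_of_mem]
      rw [mem_cyl_range]
      intro i _
      rfl
    · have hne : r η ≠ r ξ := fun h' => h (hr h')
      obtain ⟨j, hj⟩ := Function.ne_iff.mp hne
      apply tendsto_const_nhds.congr'
      filter_upwards [eventually_gt_atTop j] with k hk
      rw [Set.indicator_of_notMem (by simpa using h), Set.indicator_of_notMem]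
      · simp
      · rw [mem_cyl_range]
        intro h'
        exact hj (h' j hk)
  · refine Filter.Eventually.of_forall (fun k η => ?_)
    by_cases h : η ∈ cyl r ((List.range k).map (r ξ))
    · rw [Set.indicator_of_mem h, Real.norm_eq_abs, abs_of_nonneg (by positivity)]
    · rw [Set.indicator_of_notMem h]
      simp only [ne_eq, OfNat.ofNat_ne_zero, not_false_eq_true, zero_pow, norm_zero]
      positivity

lemma eventually_eq_of_tendsto {α : Type*} {F : Filter α} [CountableInterFilter F] {f : α → ℝ}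
    {a : ℝ} (h : Tendsto f F (𝓝 a)) : ∀ᶠ y in F, f y = a := by
  have h1 : ∀ n : ℕ, ∀ᶠ y in F, dist (f y) a < 1 / ((n : ℝ) + 1) := fun n =>
    (Metric.tendsto_nhds.mp h) _ (by positivity)
  have h2 := eventually_countable_forall.mpr h1
  filter_upwards [h2] with y hy
  by_contra hne
  have hpos : 0 < dist (f y) a := dist_pos.mpr hne
  obtain ⟨n, hn⟩ := exists_nat_one_div_lt hpos
  exact absurd (hy n) (not_lt.mpr hn.le)

lemma not_uncountable (w : List Bool → ℝ) (hw : ∀ l, 0 < w l) (hws : Summable w)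
    (r : Γ → ℕ → Bool) (hr : Function.Injective r)
    (Y : Set (lp (fun _ : Γ => ℝ) 2)) (δ : ℝ) (hδ : 0 < δ)
    (hY : ∀ y ∈ Y, ∀ z ∈ Y, y ≠ z → wnorm w (fun l => restr (cyl r l)) (y - z) = δ) :
    Y.Countable := by
  classical
  by_contra hYu
  obtain ⟨u, ν, h1, h2⟩ := main_abstract w hw hws (fun l => restr (cyl r l))
    (fun l x => norm_restr_le _ x) [] (fun x => by
      ext ξ
      rw [restr_apply, cyl_nil]
      simp) Y δ hδ hY hYu
  have hcof : CountableInterFilter (cocountable : Filter (lp (fun _ : Γ => ℝ) 2)) :=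
    CardinalInterFilter.toCountableInterFilter _ Cardinal.aleph0_lt_aleph_one
  have hcount : CountableInterFilter
      (cocountable ⊓ 𝓟 Y : Filter (lp (fun _ : Γ => ℝ) 2)) := inferInstance
  -- almost all points have the same seminorms
  have h3 : ∀ᶠ y in (cocountable ⊓ 𝓟 Y : Filter (lp (fun _ : Γ => ℝ) 2)),
      ∀ l : List Bool, ‖restr (cyl r l) y‖ ^ 2 = ν l :=
    eventually_countable_forall.mpr (fun l => eventually_eq_of_tendsto (h1 l))
  have hbot : (cocountable ⊓ 𝓟 Y : Filter (lp (fun _ : Γ => ℝ) 2)).NeBot := by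
    rw [← Filter.frequently_true_iff_neBot]
    intro h
    apply hYu
    simp only [not_true_eq_false] at h
    have h' : (∅ : Set (lp (fun _ : Γ => ℝ) 2)) ∈ (cocountable ⊓ 𝓟 Y : Filter _) := by
      simpa [Filter.Eventually] using h
    rw [Filter.mem_inf_principal] at h'
    have h2 := mem_cocountable.mp h'
    have h3 : ({x : lp (fun _ : Γ => ℝ) 2 | x ∈ Y → x ∈ (∅ : Set (lp (fun _ : Γ => ℝ) 2))}ᶜ :
      Set (lp (fun _ : Γ => ℝ) 2)) = Y := by ext y; simp
    rwa [h3] at h2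
  obtain ⟨y1, hy1⟩ := h3.exists
  have h4 : ∀ y : lp (fun _ : Γ => ℝ) 2, (∀ l : List Bool, ‖restr (cyl r l) y‖ ^ 2 = ν l) →
      ∀ ξ, (y : Γ → ℝ) ξ ^ 2 = (y1 : Γ → ℝ) ξ ^ 2 := by
    intro y hy ξ
    have t1 := tendsto_cyl r hr y ξ
    have t2 := tendsto_cyl r hr y1 ξ
    simp only [hy] at t1
    simp only [hy1] at t2
    exact tendsto_nhds_unique t1 t2
  -- the support of `y1` is countable
  have hsupp : {ξ : Γ | (y1 : Γ → ℝ) ξ ^ 2 ≠ 0}.Countable := (summable_sq y1).countable_support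
  have h5 : ∀ᶠ y : lp (fun _ : Γ => ℝ) 2 in
      (cocountable ⊓ 𝓟 Y : Filter (lp (fun _ : Γ => ℝ) 2)),
      ∀ ξ ∈ {ξ : Γ | (y1 : Γ → ℝ) ξ ^ 2 ≠ 0}, (y : Γ → ℝ) ξ = (u : Γ → ℝ) ξ := by
    rw [eventually_countable_ball hsupp]
    intro ξ _
    have := eventually_eq_of_tendsto (h2 (lp.single 2 ξ (1 : ℝ)))
    filter_upwards [this] with y hy
    rw [lp.inner_single_right, lp.inner_single_right] at hy
    simpa using hy
  -- hence almost all points coincide
  obtain ⟨y2, hy2, hy2'⟩ := (h3.and h5).exists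
  have h6 : ∀ᶠ y in (cocountable ⊓ 𝓟 Y : Filter (lp (fun _ : Γ => ℝ) 2)), y = y2 := by
    filter_upwards [h3, h5] with y hy hy'
    ext ξ
    by_cases h : (y1 : Γ → ℝ) ξ ^ 2 = 0
    · have e1 := h4 y hy ξ
      have e2 := h4 y2 hy2 ξ
      rw [h] at e1 e2
      rw [pow_eq_zero_iff two_ne_zero |>.mp e1, pow_eq_zero_iff two_ne_zero |>.mp e2]
    · rw [hy' ξ h, hy2' ξ h]
  apply hYu
  have h7 : {y | y = y2} ∈ (cocountable ⊓ 𝓟 Y : Filter (lp (fun _ : Γ => ℝ) 2)) := h6
  rw [Filter.mem_inf_principal] at h7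
  have h8 := mem_cocountable.mp h7
  refine (h8.union (Set.countable_singleton y2)).mono ?_
  intro y hy
  by_cases h : y = y2
  · right; exact h
  · left
    simp [hy, h]

/-- **ZFC answer to the question.**  For every index set `Γ` of cardinality at most the continuum
(in particular for `Γ = ω₁`, since `ℵ₁ ≤ 2 ^ ℵ₀`) the Hilbert space `ℓ₂(Γ)` has an equivalent
renorming in which every equilateral set is countable. -/
theorem result (Γ : Type u) (hΓ : Cardinal.mk Γ ≤ Cardinal.continuum) :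
    ∃ N : Ell2 Γ → ℝ, IsEquivalentRenorming N ∧
      ∀ Y : Set (Ell2 Γ), IsEquilateral N Y → Y.Countable := by
  -- an injection into the Cantor space
  have hinj : Nonempty (Γ ↪ (ℕ → Bool)) := by
    rw [← Cardinal.lift_mk_le']
    have h1 : Cardinal.mk (ℕ → Bool) = Cardinal.continuum := by simp
    rw [h1]
    simpa using hΓ
  obtain ⟨r⟩ := hinj
  let w : List Bool → ℝ := fun l => (1 / 2 : ℝ) ^ Encodable.encode l
  have hw : ∀ l, 0 < w l := fun l => by positivity
  have hws : Summable w := summable_geometric_two_encode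
  have hs := fun x => summable_wnorm w hw hws (fun l => restr (cyl r l))
    (fun l x => norm_restr_le _ x) x
  refine ⟨wnorm w (fun l => restr (cyl r l)), ⟨?_, ?_, ?_⟩, ?_⟩
  · intro x y
    rw [wnorm, wnorm, wnorm, ← (hs x).tsum_add (hs y)]
    refine Summable.tsum_le_tsum (fun l => ?_) (hs _) ((hs x).add (hs y))
    rw [← mul_add, map_add]
    exact mul_le_mul_of_nonneg_left (norm_add_le _ _) (hw l).le
  · intro t x
    rw [wnorm, wnorm, ← tsum_mul_left]
    congr 1
    ext l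
    rw [map_smul, norm_smul, Real.norm_eq_abs]
    ring
  · refine ⟨w [], ∑' l, w l, hw [], fun x => ⟨?_, ?_⟩⟩
    · have h1 := (hs x).le_tsum [] (fun l _ => mul_nonneg (hw l).le (norm_nonneg _))
      have h2 : restr (cyl r []) x = x := by
        ext ξ
        rw [restr_apply, cyl_nil]
        simp
      rw [h2] at h1
      exact h1
    · rw [wnorm, ← tsum_mul_right]
      exact Summable.tsum_le_tsum
        (fun l => mul_le_mul_of_nonneg_left (norm_restr_le _ x) (hw l).le) (hs x)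
        (hws.mul_right _)
  · rintro Y ⟨δ, hδ, hY⟩
    exact not_uncountable w hw hws r r.injective Y δ hδ hY

end Concrete

end Pool.Agent.Results.MP_55235b_an.ZFCRenorming
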